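import Pool.Agent.PFC.StmtsB2

/-!
# Squad PFC, block B2, row CLB (helper31): claim B
-/

noncomputable section

namespace Pool.Agent.PFC.B2.H31

open Pool.Agent.PFC.B1

/-- row CLB -/
theorem clb (hthe : TheStmt) (hbse : BseStmt) (hnhp : NhpStmt) (hsch : SchStmt) : ClbStmt := by
  intro F Γ A' H I J L T S S' _ _ _ _ _ _ _ _ _ _ _ _ _ _ _ _ _ _ _ c d sp nk τ σ σ' f f' hHP hτ hσ
    hσ' hiso hf hf' hn
  obtain ⟨θ, hθ, hθ1, hθ2⟩ := hthe F Γ H L T S nk (τ.res sp.j) σ f hσ hf hn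
  obtain ⟨g0, P, _, _, π, g, h, hg0, hπ, hg, hh, hsum⟩ :=
    hbse (PowerSeries F) Γ A' I J L T c d sp τ θ hHP hθ
  have h1 : Nul nk (τ.res sp.j) ((f ∘ₗ h) ∘ₗ g) := by
    refine hnhp.2 F Γ H I L T P S c nk (τ.res sp.j) π σ g (f ∘ₗ h) hπ hσ hg fun a x => ?_
    rw [LinearMap.comp_apply, LinearMap.comp_apply, hh, hf]
  have h2 : Nul nk (τ.res sp.j) ((f' ∘ₗ h) ∘ₗ g) := by
    refine hnhp.2 F Γ H I L T P S' c nk (τ.res sp.j) π σ' g (f' ∘ₗ h) hπ hσ' hg fun a x => ?_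
    rw [LinearMap.comp_apply, LinearMap.comp_apply, hh, hf']
  have hg00 : g0 ≠ 0 := by
    intro h0
    apply hθ1
    intro t ht
    have h3 := h1 t ht
    rw [hsum, h0, zero_add]
    exact h3
  have hbij := hsch (PowerSeries F) A' L T T τ τ g0 hτ hτ hg0 hg00
  have h0 := hθ2 S' σ' f' hσ' hiso hf'
  intro t ht
  obtain ⟨t', rfl⟩ := hbij.2 t
  have ht' : (τ.res sp.j).ρ (nk.x ^ (nk.Q - 1)) t' = 0 := by
    apply hbij.1
    rw [map_zero]
    exact (hg0 (sp.j (nk.x ^ (nk.Q - 1))) t').trans ht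
  have h3 : f' (θ t') = 0 := by
    rw [← LinearMap.comp_apply, h0, LinearMap.zero_apply]
  have h4 : f' (h (g t')) = 0 := h2 t' ht'
  rw [hsum, LinearMap.add_apply, LinearMap.comp_apply, map_add, h4, add_zero] at h3
  exact h3

end Pool.Agent.PFC.B2.H31
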