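import Pool.Agent.Helper31_PFC.FulB

/-!
# Squad PFC, block B5c, row FUL (helper31): an idempotent which is `1` modulo the Brauer kernel of `V`
is full
-/

open scoped BigOperators TensorProduct

noncomputable section

namespace Pool.Agent.PFC.B5c.H31

section claim

variable {F V E A Ω : Type} [Field F] [CommGroup V] [Group E] [Ring A] [Algebra F A]
  [MulAction (V × V) Ω] [Fintype Ω] [Fintype V] {φ : E →* MulAut V} {α : V →* A}
  {lam : A →ₗ[F] F} {b s : Ω → A} {c : Ω → (A →ₗ[F] F)} {chi : A →ₗ[F] F}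

/-- `chi(∑_{O of type (e, ⊤)} b_O s_O) * lam(σ) = 1` -/
theorem claim {ℓ : ℕ} [Fact ℓ.Prime] [CharP F ℓ] (hV : IsPGroup ℓ V) (hf : Fr2 α lam b s)
    (hfr : IsFr (bi F α) b c) (hcs : ∀ ω x, c ω x = lam (s ω * x)) (hc : Ch α chi)
    (hst : ∀ ω : Ω, ∃ (e : E) (R : Subgroup V),
      MulAction.stabilizer (V × V) ω = tw (φ e).toMonoidHom R) (e : E) (y y' : A)
    (h1 : y * y' = 1) (h2 : y' * y = 1) (h3 : ∀ u, y * α u = α (φ e u) * y)
    (T : Finset (Zq V Ω)) (hT : ∀ z, z ∈ T ↔ Ft φ e (rp z)) :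
    (∑ z ∈ T, chi (fw b s 1 z)) * lam (∑ v, α v) = 1 := by
  classical
  let ψ : V →* V × V := (φ e).toMonoidHom.prod (MonoidHom.id V)
  letI : MulAction V Ω := MulAction.compHom Ω ψ
  let ρ : V →* (A →ₗ[F] A) := rst (bi F α) ψ
  have hρ : IsFr ρ b c := ⟨fun h ω => hfr.1 (ψ h) ω, fun h ω m => hfr.2.1 (ψ h) ω m, hfr.2.2⟩
  have hap : ∀ u x, ρ u x = α (φ e u) * x * α u⁻¹ := fun u x => bi_ap α (ψ u) x
  have hy : y ∈ Fx ρ ⊤ := fun u _ => by rw [hap, ← h3, mul_assoc, mi, mul_one]
  have hy' : ∀ u, y' * α (φ e u) = α u * y' := by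
    intro u
    calc y' * α (φ e u) = y' * (α (φ e u) * y) * y' := by
          rw [mul_assoc, mul_assoc, h1, mul_one]
      _ = y' * y * (α u * y') := by
          rw [← h3]
          simp only [mul_assoc]
      _ = α u * y' := by rw [h2, one_mul]
  have hsub := frame_sub hρ ⊤ hy
  have hmul : ∀ x ∈ BK ρ ⊤, y' * x ∈ BK (cj F α) ⊤ := by
    intro x hx
    unfold BK at hx
    induction hx using Submodule.span_induction with
    | mem n hn =>
      obtain ⟨K, S, m, hlt, hS, hm, rfl⟩ := hn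
      have h4 : ∀ x, y' * ρ x m = cj F α x (y' * m) := by
        intro x
        rw [hap, cj_ap]
        calc y' * (α (φ e x) * m * α x⁻¹) = (y' * α (φ e x)) * m * α x⁻¹ := by
              simp only [mul_assoc]
          _ = α x * (y' * m) * α x⁻¹ := by
              rw [hy']
              simp only [mul_assoc]
      refine Submodule.subset_span ⟨K, S, y' * m, hlt, hS, ?_, ?_⟩
      · intro x hx
        rw [← h4, hm x hx]
      · rw [Finset.mul_sum]
        exact Finset.sum_congr rfl fun x _ => h4 x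
    | zero => rw [mul_zero]; exact Submodule.zero_mem _
    | add x x' _ _ hx hx' => rw [mul_add]; exact Submodule.add_mem _ hx hx'
    | smul r x _ hx => rw [mul_smul_comm]; exact Submodule.smul_mem _ _ hx
  have h5 := hc.bk _ (hmul _ hsub)
  rw [mul_sub, h2, map_sub, hc.one, sub_eq_zero, Finset.mul_sum, map_sum] at h5
  have h6 : ∀ ω : Ω, ω ∈ fp (⊤ : Subgroup V) Ω ↔ Ft φ e ω := by
    intro ω
    rw [mem_fp]
    exact ⟨fun h u => h u (Subgroup.mem_top u), fun h u _ => h u⟩
  have h7 : (fp (⊤ : Subgroup V) Ω) = Finset.univ.filter (fun ω => Ft φ e ω) := by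
    ext ω
    rw [h6, Finset.mem_filter]
    exact ⟨fun h => ⟨Finset.mem_univ _, h⟩, fun h => h.2⟩
  have h8 : T = Finset.univ.filter (fun z : Zq V Ω => Ft φ e (rp z)) := by
    ext z
    rw [hT, Finset.mem_filter]
    exact ⟨fun h => ⟨Finset.mem_univ _, h⟩, fun h => h.2⟩
  rw [h5, h7, h8, Finset.sum_mul, Finset.sum_filter, Finset.sum_filter, sum_z (free_of hst)]
  refine Finset.sum_congr rfl fun z _ => ?_
  simp only [Ft_iff]
  by_cases hz : Ft φ e (rp z)
  · simp only [if_pos hz]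
    -- the elements `y' b` and `s y` commute with `V`
    have hb := Ft_b hf e (rp z) hz
    have hs := Ft_s hf e (rp z) hz
    have hB : y' * b (rp z) ∈ Fx (cj F α) ⊤ := by
      rw [mem_C]
      intro u
      rw [← mul_assoc, ← hy', mul_assoc, ← hb, mul_assoc]
    have hS : s (rp z) * y ∈ Fx (cj F α) ⊤ := by
      rw [mem_C]
      intro u
      rw [← mul_assoc, hs, mul_assoc, ← h3, mul_assoc]
    have hbs : b (rp z) * s (rp z) ∈ Fx (cj F α) ⊤ := by
      rw [mem_C]
      intro u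
      obtain ⟨u', rfl⟩ := (φ e).surjective u
      rw [← mul_assoc, ← hb, mul_assoc, hs, mul_assoc]
    have h9 : ∀ v, chi (y' * c (((1, v) : V × V) • rp z) y • b (((1, v) : V × V) • rp z)) =
        lam (α v * (s (rp z) * y)) * chi (y' * b (rp z)) := by
      intro v
      rw [hcs, fr_b hf, fr_s hf, mul_smul_comm, map_smul, smul_eq_mul, ← mul_assoc y',
        hc.mul _ hB _ (al_C α _), hc.al, mul_one, mul_assoc (α v)]
    rw [Finset.sum_congr rfl fun v _ => h9 v, ← Finset.sum_mul, hc.sig hV hf.sym hS, fw, mul_one]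
    have h10 : chi (y' * (b (rp z) * s (rp z)) * y) = chi (b (rp z) * s (rp z)) := by
      refine hc.conj ((φ e).symm : V ≃* V) y' y ?_ ?_ h2 hbs
      · intro u
        have := hy' ((φ e).symm u)
        rwa [MulEquiv.apply_symm_apply] at this
      · intro u
        have := h3 ((φ e).symm u)
        rw [MulEquiv.apply_symm_apply] at this
        exact this.symm
    have h11 : y' * (b (rp z) * s (rp z)) * y = (y' * b (rp z)) * (s (rp z) * y) := by
      simp only [mul_assoc]
    rw [h11, hc.mul _ hB _ hS] at h10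
    rw [← h10]
    ring
  · simp only [if_neg hz, Finset.sum_const_zero, zero_mul]

end claim

/-- The statement without the bundles. -/
theorem ful_main {F V E A : Type} [Field F] [CommGroup V] [Group E] [Ring A] [Algebra F A]
    [Fintype V] [Fintype E] [FiniteDimensional F A] {φ : E →* MulAut V} {α : V →* A}
    {lam : A →ₗ[F] F} {chi : A →ₗ[F] F} {ℓ : ℕ} [Fact ℓ.Prime] [CharP F ℓ] {W : Subgroup V}
    (hC : Ctf ℓ φ W) (hlam : Frm F α lam)
    (hps : PS (fun K => ∃ (e : E) (R : Subgroup V), K = tw (φ e).toMonoidHom R) (bi F α))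
    (hc : Ch α chi)
    (huni : ∀ e : E, ∃ y y' : A, y * y' = 1 ∧ y' * y = 1 ∧ ∀ u, y * α u = α (φ e u) * y)
    (hcen : ∀ z : A, (∀ a, z * a = a * z) → IsUnit z ∨ IsNilpotent z) (j : A)
    (hj : j ∈ Fx (cj F α) ⊤) (hj1 : 1 - j ∈ BK (cj F α) ⊤) :
    (1 : A) ∈ Submodule.span F {x | ∃ a b : A, x = a * j * b} := by
  classical
  obtain ⟨Ω, _, _, b, c, hfr, hst⟩ := hps
  obtain ⟨s, hcs, hf⟩ := ex_fr hlam.sym hlam.nd hfr
  have hfree := free_of hst
  obtain ⟨T, hT, hT2⟩ := Tm_split hf (one_C α)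
  have hchi1 : chi (Tm V b s 1) = ∑ z ∈ T, chi (fw b s 1 z) := by
    have h1 := hc.bk _ hT2
    rwa [map_sub, map_sum, sub_eq_zero] at h1
  have hcard : chi (Tm V b s 1) * lam (∑ v, α v) = (Fintype.card E : F) := by
    have h1 : ∑ z ∈ T, chi (fw b s 1 z) =
        ∑ e : E, ∑ z ∈ T.filter (fun z => Ft φ e (rp z)), chi (fw b s 1 z) := by
      simp only [Finset.sum_filter]
      rw [Finset.sum_comm]
      refine Finset.sum_congr rfl fun z hz => ?_
      obtain ⟨e, he⟩ := ex_Ft hst z ((hT z).1 hz)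
      rw [Finset.sum_eq_single e, if_pos he]
      · intro e' _ hne
        rw [if_neg]
        intro he'
        exact hne (Ft_unique hC hst e' e _ he' he)
      · intro h
        exact absurd (Finset.mem_univ e) h
    rw [hchi1, h1, Finset.sum_mul]
    have h2 : ∀ e : E, (∑ z ∈ T.filter (fun z => Ft φ e (rp z)), chi (fw b s 1 z)) *
        lam (∑ v, α v) = 1 := by
      intro e
      obtain ⟨y, y', hy1, hy2, hy3⟩ := huni e
      refine claim hC.pg hf hfr hcs hc hst e y y' hy1 hy2 hy3 _ fun z => ?_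
      rw [Finset.mem_filter, hT]
      exact ⟨fun h => h.2, fun h => ⟨fun u => Ft_fix e z h u, h⟩⟩
    rw [Finset.sum_congr rfl fun e _ => h2 e, Finset.sum_const, Finset.card_univ, nsmul_eq_mul,
      mul_one]
  have hne : (Fintype.card E : F) ≠ 0 := by
    intro h
    rw [CharP.cast_eq_zero_iff F ℓ, ← Nat.card_eq_fintype_card] at h
    exact hC.cop h
  have hadd : Tm V b s 1 = Tm V b s j + Tm V b s (1 - j) := by
    rw [Tm, Tm, Tm, ← Finset.sum_add_distrib]
    refine Finset.sum_congr rfl fun z _ => ?_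
    rw [← add_mul, ← mul_add, add_sub_cancel]
  have hchij : chi (Tm V b s j) = chi (Tm V b s 1) := by
    rw [hadd, map_add, hc.bk _ (Tm_BK hf hst hj1), add_zero]
  have hzc : ∀ a, Tm V b s j * a = a * Tm V b s j := fun a => (Tm_central hf hfree hj a).symm
  have hz0 : chi (Tm V b s j) ≠ 0 := by
    intro h
    rw [hchij] at h
    rw [h, zero_mul] at hcard
    exact hne hcard.symm
  rcases hcen _ hzc with hu | hn
  · obtain ⟨z', hz'⟩ := hu.exists_left_inv
    have h1 : ∑ z : Zq V Ω, z' * b (rp z) * j * s (rp z) = 1 := by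
      rw [← hz', Tm, Finset.mul_sum]
      simp only [mul_assoc]
    rw [← h1]
    exact Submodule.sum_mem _ fun z _ => Submodule.subset_span ⟨_, _, rfl⟩
  · exfalso
    obtain ⟨N, hN⟩ := hn
    have hCz : Tm V b s j ∈ Fx (cj F α) ⊤ := by
      rw [mem_C]
      intro u
      exact (hzc _).symm
    have hpow : ∀ k : ℕ, Tm V b s j ^ k ∈ Fx (cj F α) ⊤ ∧
        chi (Tm V b s j ^ k) = chi (Tm V b s j) ^ k := by
      intro k
      induction k with
      | zero =>
        rw [pow_zero, pow_zero]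
        exact ⟨one_C α, hc.one⟩
      | succ k ih =>
        rw [pow_succ, pow_succ, hc.mul _ ih.1 _ hCz, ih.2]
        exact ⟨C_mul α ih.1 hCz, rfl⟩
    have h1 := (hpow N).2
    rw [hN, map_zero] at h1
    exact pow_ne_zero N hz0 h1.symm

/-- row FUL -/
theorem ful (hbrk : BrkStmt) : FulStmt := by
  classical
  intro ℓ _ F V E A _ _ _ _ _ _ _ _ _ φ W α lam j hC hlam hps hbq huni hcen hj _ hj1
  obtain ⟨β, sg, h⟩ := hbq
  let β' : A →ₗ[F] MonoidAlgebra F V := β
  have hβ : ∀ m ∈ Fx (cj F α) ⊤, β' m = 0 ↔ m ∈ BK (cj F α) ⊤ :=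
    hbrk ℓ F V A (MonoidAlgebra F V) (cj F α) (cj F (MonoidAlgebra.of F V)) ⊤ β' sg hC.pg
      h.toBrS
  have hcov : ∀ v, β' (α v) = MonoidAlgebra.of F V v := h.cov
  have hmul : ∀ x ∈ Fx (cj F α) ⊤, ∀ y ∈ Fx (cj F α) ⊤, β' (x * y) = β' x * β' y := h.mul
  let chi : A →ₗ[F] F := (B5a.au F V).toLinearMap.comp β'
  have hchi : ∀ x, chi x = B5a.au F V (β' x) := fun x => rfl
  have hc : Ch α chi := by
    refine ⟨?_, ?_, ?_, ?_⟩
    · intro m hm
      rw [hchi, (hβ m (BK_le_Fx _ _ hm)).2 hm, map_zero]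
    · intro x hx y hy
      rw [hchi, hmul x hx y hy, map_mul]
      rfl
    · intro v
      rw [hchi, hcov, B5a.au, MonoidAlgebra.lift_of]
      rfl
    · intro x hx
      refine ⟨fun v => (β' x).coeff v, ?_⟩
      rw [← hβ]
      · rw [map_sub, map_sum, sub_eq_zero]
        ext w
        rw [MonoidAlgebra.coeff_sum, Finsupp.finset_sum_apply]
        simp only [map_smul, hcov, MonoidAlgebra.of_apply, MonoidAlgebra.coeff_smul,
          MonoidAlgebra.coeff_single, Finsupp.smul_apply, Finsupp.single_apply, smul_eq_mul,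
          mul_ite, mul_one, mul_zero, Finset.sum_ite_eq', Finset.mem_univ, if_true]
      · refine Submodule.sub_mem _ hx (Submodule.sum_mem _ fun v _ => ?_)
        exact Submodule.smul_mem _ _ (al_C α v)
  exact ful_main hC hlam hps hc huni hcen j hj hj1

end Pool.Agent.PFC.B5c.H31
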