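import Pool.Agent.PFC.StmtsB5c
import Pool.Agent.Helper77_PFC.TRSa

/-!
# Squad PFC, block B5c, row FUL (helper31), part 1: the dual frame and the central elements `T w`
-/

open scoped BigOperators TensorProduct

noncomputable section

namespace Pool.Agent.PFC.B5c.H31

section basics

variable {F V A : Type} [Field F] [CommGroup V] [Ring A] [Algebra F A]

theorem bi_ap (α : V →* A) (w : V × V) (x : A) : bi F α w x = α w.1 * x * α w.2⁻¹ := by
  rw [mul_assoc]
  rfl

theorem cj_ap (α : V →* A) (u : V) (x : A) : cj F α u x = α u * x * α u⁻¹ :=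
  bi_ap α (u, u) x

theorem mi (α : V →* A) (u : V) : α u * α u⁻¹ = 1 := by
  rw [← map_mul, mul_inv_cancel, map_one]

theorem im (α : V →* A) (u : V) : α u⁻¹ * α u = 1 := by
  rw [← map_mul, inv_mul_cancel, map_one]

theorem mem_C (α : V →* A) (x : A) : x ∈ Fx (cj F α) ⊤ ↔ ∀ u, α u * x = x * α u := by
  rw [mem_Fx]
  constructor
  · intro h u
    have h1 := h u (Subgroup.mem_top u)
    rw [cj_ap] at h1
    calc α u * x = α u * x * (α u⁻¹ * α u) := by rw [im, mul_one]
      _ = α u * x * α u⁻¹ * α u := by rw [mul_assoc (α u * x)]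
      _ = x * α u := by rw [h1]
  · intro h u _
    rw [cj_ap, h u, mul_assoc, mi, mul_one]

theorem C_mul (α : V →* A) {x y : A} (hx : x ∈ Fx (cj F α) ⊤) (hy : y ∈ Fx (cj F α) ⊤) :
    x * y ∈ Fx (cj F α) ⊤ := by
  rw [mem_C] at *
  intro u
  rw [← mul_assoc, hx, mul_assoc, hy, mul_assoc]

theorem al_C (α : V →* A) (v : V) : α v ∈ Fx (cj F α) ⊤ := by
  rw [mem_C]
  intro u
  rw [← map_mul, ← map_mul, mul_comm]

theorem one_C (α : V →* A) : (1 : A) ∈ Fx (cj F α) ⊤ := by
  rw [mem_C]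
  intro u
  rw [mul_one, one_mul]

end basics

section quot

variable {V Ω : Type} [CommGroup V] [MulAction (V × V) Ω]

/-- the relation: same orbit of `1 × V` -/
def st (V Ω : Type) [CommGroup V] [MulAction (V × V) Ω] : Setoid Ω where
  r ω ω' := ∃ v : V, ((1, v) : V × V) • ω = ω'
  iseqv := by
    refine ⟨fun ω => ⟨1, one_smul _ _⟩, ?_, ?_⟩
    · rintro ω ω' ⟨v, h⟩
      refine ⟨v⁻¹, ?_⟩
      rw [← h, smul_smul, Prod.mk_mul_mk, inv_mul_cancel, one_mul]
      exact one_smul _ _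
    · rintro ω ω' ω'' ⟨v, h⟩ ⟨v', h'⟩
      refine ⟨v' * v, ?_⟩
      rw [← h', ← h, smul_smul, Prod.mk_mul_mk, one_mul]

/-- the orbits of `1 × V` -/
def Zq (V Ω : Type) [CommGroup V] [MulAction (V × V) Ω] : Type := Quotient (st V Ω)

/-- the orbit of a point -/
def cl (V : Type) {Ω : Type} [CommGroup V] [MulAction (V × V) Ω] (ω : Ω) : Zq V Ω :=
  Quotient.mk (st V Ω) ω

/-- a representative -/
def rp (z : Zq V Ω) : Ω := Quotient.out z

theorem cl_rp (z : Zq V Ω) : cl V (rp z) = z := Quotient.out_eq z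

theorem cl_eq (ω ω' : Ω) : cl V ω = cl V ω' ↔ ∃ v : V, ((1, v) : V × V) • ω = ω' :=
  ⟨fun h => Quotient.exact h, fun h => Quotient.sound (s := st V Ω) h⟩

instance [Finite Ω] : Finite (Zq V Ω) := inferInstanceAs (Finite (Quotient (st V Ω)))

instance [Fintype Ω] : Fintype (Zq V Ω) := Fintype.ofFinite _

instance : MulAction V (Zq V Ω) where
  smul u := Quotient.map (fun ω : Ω => ((u, 1) : V × V) • ω) (by
    rintro ω ω' ⟨v, h⟩
    refine ⟨v, ?_⟩
    change ((1, v) : V × V) • ((u, 1) : V × V) • ω = ((u, 1) : V × V) • ω'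
    rw [← h, smul_smul, smul_smul, mul_comm])
  one_smul := by
    intro z
    induction z using Quotient.ind with
    | _ ω => exact congrArg _ (one_smul (V × V) ω)
  mul_smul := by
    intro u u' z
    induction z using Quotient.ind with
    | _ ω =>
      refine congrArg (Quotient.mk (st V Ω)) (?_ : ((u * u', 1) : V × V) • ω =
        ((u, 1) : V × V) • ((u', 1) : V × V) • ω)
      rw [smul_smul, Prod.mk_mul_mk, one_mul]

theorem smul_cl (u : V) (ω : Ω) : u • cl V ω = cl V (((u, 1) : V × V) • ω) := rfl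

theorem bij [Fintype V] [Fintype Ω] (hfree : ∀ (ω : Ω) (v : V), ((1, v) : V × V) • ω = ω → v = 1) :
    Function.Bijective (fun p : Zq V Ω × V => ((1, p.2) : V × V) • rp p.1) := by
  constructor
  · rintro ⟨z, v⟩ ⟨z', v'⟩ h
    change ((1, v) : V × V) • rp z = ((1, v') : V × V) • rp z' at h
    have hz : z = z' := by
      rw [← cl_rp z, ← cl_rp z', cl_eq]
      refine ⟨v'⁻¹ * v, ?_⟩
      have h1 : ((1, v'⁻¹ * v) : V × V) = (1, v'⁻¹) * (1, v) := by
        rw [Prod.mk_mul_mk, one_mul]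
      rw [h1, mul_smul, h, smul_smul, Prod.mk_mul_mk, inv_mul_cancel, one_mul]
      exact one_smul _ _
    subst hz
    have h2 : v'⁻¹ * v = 1 := by
      apply hfree (rp z)
      have h1 : ((1, v'⁻¹ * v) : V × V) = (1, v'⁻¹) * (1, v) := by
        rw [Prod.mk_mul_mk, one_mul]
      rw [h1, mul_smul, h, smul_smul, Prod.mk_mul_mk, inv_mul_cancel, one_mul]
      exact one_smul _ _
    rw [inv_mul_eq_one] at h2
    rw [h2]
  · intro ω
    obtain ⟨v, hv⟩ := (cl_eq (rp (cl V ω)) ω).1 (cl_rp (cl V ω))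
    exact ⟨(cl V ω, v), hv⟩

theorem sum_z [Fintype V] [Fintype Ω] {M : Type} [AddCommMonoid M]
    (hfree : ∀ (ω : Ω) (v : V), ((1, v) : V × V) • ω = ω → v = 1) (g : Ω → M) :
    ∑ ω, g ω = ∑ z : Zq V Ω, ∑ v : V, g (((1, v) : V × V) • rp z) := by
  rw [← (bij hfree).sum_comp g, Fintype.sum_prod_type]

end quot

section frame

variable {F V A Ω : Type} [Field F] [CommGroup V] [Ring A] [Algebra F A]
  [MulAction (V × V) Ω] [Fintype Ω]

/-- The frame with the functionals `c ω x = lam(s ω * x)`. -/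
structure Fr2 (α : V →* A) (lam : A →ₗ[F] F) (b s : Ω → A) : Prop where
  sym : ∀ x y, lam (x * y) = lam (y * x)
  nd : ∀ x, (∀ y, lam (x * y) = 0) → x = 0
  fb : ∀ (w : V × V) (ω : Ω), b (w • ω) = α w.1 * b ω * α w.2⁻¹
  fs : ∀ (w : V × V) (ω : Ω), s (w • ω) = α w.2 * s ω * α w.1⁻¹
  s1 : ∀ x, ∑ ω, lam (s ω * x) • b ω = x
  s2 : ∀ x, ∑ ω, lam (x * b ω) • s ω = x

theorem eq_of_lam {lam : A →ₗ[F] F} (nd : ∀ x, (∀ y, lam (x * y) = 0) → x = 0) {x x' : A}
    (h : ∀ y, lam (x * y) = lam (x' * y)) : x = x' := by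
  rw [← sub_eq_zero]
  apply nd
  intro y
  rw [sub_mul, map_sub, h, sub_self]

theorem ex_s [FiniteDimensional F A] {lam : A →ₗ[F] F}
    (nd : ∀ x, (∀ y, lam (x * y) = 0) → x = 0) (c : A →ₗ[F] F) :
    ∃ s : A, ∀ x, c x = lam (s * x) := by
  let L : A →ₗ[F] (A →ₗ[F] F) := (LinearMap.mul F A).compr₂ lam
  have hL : ∀ x y, L x y = lam (x * y) := fun x y => rfl
  have hinj : Function.Injective L := by
    rw [injective_iff_map_eq_zero]
    intro x hx
    exact nd x fun y => by rw [← hL, hx, LinearMap.zero_apply]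
  have hsur : Function.Surjective L :=
    (LinearMap.injective_iff_surjective_of_finrank_eq_finrank
      (Subspace.dual_finrank_eq (K := F) (V := A)).symm).1 hinj
  obtain ⟨s, hs⟩ := hsur c
  exact ⟨s, fun x => by rw [← hs, hL]⟩

theorem ex_fr [FiniteDimensional F A] {α : V →* A} {lam : A →ₗ[F] F}
    (sym : ∀ x y, lam (x * y) = lam (y * x)) (nd : ∀ x, (∀ y, lam (x * y) = 0) → x = 0)
    {b : Ω → A} {c : Ω → (A →ₗ[F] F)} (h : IsFr (bi F α) b c) :
    ∃ s : Ω → A, (∀ ω x, c ω x = lam (s ω * x)) ∧ Fr2 α lam b s := by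
  choose s hs using fun ω => ex_s nd (c ω)
  refine ⟨s, hs, sym, nd, ?_, ?_, ?_, ?_⟩
  · intro w ω
    rw [h.1, bi_ap]
  · intro w ω
    apply eq_of_lam nd
    intro y
    have h1 := h.2.1 w ω (α w.1⁻¹ * y * α w.2)
    have h2 : bi F α w (α w.1⁻¹ * y * α w.2) = y := by
      rw [bi_ap]
      calc α w.1 * (α w.1⁻¹ * y * α w.2) * α w.2⁻¹
          = (α w.1 * α w.1⁻¹) * y * (α w.2 * α w.2⁻¹) := by simp only [mul_assoc]
        _ = y := by rw [mi, mi, one_mul, mul_one]
    rw [h2, hs, hs] at h1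
    rw [h1]
    calc lam (s ω * (α w.1⁻¹ * y * α w.2)) = lam ((s ω * α w.1⁻¹ * y) * α w.2) := by
          simp only [mul_assoc]
      _ = lam (α w.2 * (s ω * α w.1⁻¹ * y)) := sym _ _
      _ = lam (α w.2 * s ω * α w.1⁻¹ * y) := by simp only [mul_assoc]
  · intro x
    simp only [← hs]
    exact h.2.2 x
  · intro x
    apply eq_of_lam nd
    intro y
    rw [Finset.sum_mul, map_sum]
    calc ∑ ω, lam (lam (x * b ω) • s ω * y) = ∑ ω, lam (x * (lam (s ω * y) • b ω)) := by
          refine Finset.sum_congr rfl fun ω _ => ?_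
          rw [smul_mul_assoc, mul_smul_comm, map_smul, map_smul, smul_eq_mul, smul_eq_mul,
            mul_comm]
      _ = lam (x * ∑ ω, lam (s ω * y) • b ω) := by rw [Finset.mul_sum, map_sum]
      _ = lam (x * y) := by
          simp only [← hs]
          rw [h.2.2]

variable [Fintype V]

/-- `E x = ∑_v lam(v x) v⁻¹` -/
def Ev (α : V →* A) (lam : A →ₗ[F] F) (x : A) : A := ∑ v, lam (α v * x) • α v⁻¹

theorem Ev_comm (α : V →* A) (lam : A →ₗ[F] F) (x : A) {w : A} (hw : w ∈ Fx (cj F α) ⊤) :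
    Ev α lam x * w = w * Ev α lam x := by
  rw [mem_C] at hw
  rw [Ev, Finset.sum_mul, Finset.mul_sum]
  refine Finset.sum_congr rfl fun v _ => ?_
  rw [smul_mul_assoc, mul_smul_comm, hw]

theorem Ev_inv (α : V →* A) (lam : A →ₗ[F] F) (x : A) :
    Ev α lam x = ∑ v, lam (α v⁻¹ * x) • α v := by
  rw [Ev, ← Equiv.sum_comp (Equiv.inv V)]
  refine Finset.sum_congr rfl fun v _ => ?_
  rw [Equiv.inv_apply, inv_inv]

variable {α : V →* A} {lam : A →ₗ[F] F} {b s : Ω → A} (hf : Fr2 α lam b s)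
  (hfree : ∀ (ω : Ω) (v : V), ((1, v) : V × V) • ω = ω → v = 1)

include hf in
theorem fr_b (ω : Ω) (v : V) : b (((1, v) : V × V) • ω) = b ω * α v⁻¹ := by
  rw [hf.fb, map_one, one_mul]

include hf in
theorem fr_s (ω : Ω) (v : V) : s (((1, v) : V × V) • ω) = α v * s ω := by
  rw [hf.fs, inv_one, map_one, mul_one]

include hf hfree in
theorem fr_1 (x : A) : ∑ z : Zq V Ω, b (rp z) * Ev α lam (s (rp z) * x) = x := by
  conv_rhs => rw [← hf.s1 x]
  rw [sum_z hfree]
  refine Finset.sum_congr rfl fun z _ => ?_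
  rw [Ev, Finset.mul_sum]
  refine Finset.sum_congr rfl fun v _ => ?_
  rw [fr_b hf, fr_s hf, mul_smul_comm, mul_assoc]

include hf hfree in
theorem fr_2 (x : A) : ∑ z : Zq V Ω, Ev α lam (x * b (rp z)) * s (rp z) = x := by
  conv_rhs => rw [← hf.s2 x]
  rw [sum_z hfree]
  refine Finset.sum_congr rfl fun z _ => ?_
  rw [Ev_inv, Finset.sum_mul]
  refine Finset.sum_congr rfl fun v _ => ?_
  rw [fr_b hf, fr_s hf, smul_mul_assoc, hf.sym, mul_assoc]

/-- the central elements `T w` -/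
def Tm (V : Type) [CommGroup V] [MulAction (V × V) Ω] (b s : Ω → A) (w : A) : A :=
  ∑ z : Zq V Ω, b (rp z) * w * s (rp z)

include hf hfree in
theorem Tm_central {w : A} (hw : w ∈ Fx (cj F α) ⊤) (y : A) :
    y * Tm V b s w = Tm V b s w * y := by
  calc y * Tm V b s w
      = ∑ z : Zq V Ω, (∑ z' : Zq V Ω, b (rp z') * Ev α lam (s (rp z') * (y * b (rp z)))) *
          w * s (rp z) := by
        rw [Tm, Finset.mul_sum]
        refine Finset.sum_congr rfl fun z _ => ?_
        rw [fr_1 hf hfree]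
        simp only [mul_assoc]
    _ = ∑ z : Zq V Ω, ∑ z' : Zq V Ω,
          b (rp z') * w * (Ev α lam (s (rp z') * y * b (rp z)) * s (rp z)) := by
        refine Finset.sum_congr rfl fun z _ => ?_
        rw [Finset.sum_mul, Finset.sum_mul]
        refine Finset.sum_congr rfl fun z' _ => ?_
        rw [mul_assoc (b (rp z')), Ev_comm α lam _ hw]
        simp only [mul_assoc]
    _ = ∑ z' : Zq V Ω, b (rp z') * w * ∑ z : Zq V Ω,
          (Ev α lam (s (rp z') * y * b (rp z)) * s (rp z)) := by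
        rw [Finset.sum_comm]
        refine Finset.sum_congr rfl fun z' _ => ?_
        rw [Finset.mul_sum]
    _ = Tm V b s w * y := by
        rw [Tm, Finset.sum_mul]
        refine Finset.sum_congr rfl fun z' _ => ?_
        rw [fr_2 hf hfree]
        simp only [mul_assoc]

end frame

end Pool.Agent.PFC.B5c.H31
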