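import Pool.Agent.Helper31_PFC.FulA

/-!
# Squad PFC, block B5c, row FUL (helper31), part 2: the orbits of `V × V` and the character
-/

open scoped BigOperators TensorProduct

noncomputable section

namespace Pool.Agent.PFC.B5c.H31

section conj

variable {F V A : Type} [Field F] [CommGroup V] [Ring A] [Algebra F A]

/-- the map `w ↦ b w s` maps the Brauer kernel to the Brauer kernel if `b`, `s` twist the action -/
theorem conj_BK (α : V →* A) (ψ : V ≃* V) (b s : A) (hb : ∀ u, b * α u = α (ψ u) * b)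
    (hs : ∀ u, α u * s = s * α (ψ u)) {w : A} (hw : w ∈ BK (cj F α) ⊤) :
    b * w * s ∈ BK (cj F α) ⊤ := by
  classical
  unfold BK at hw
  induction hw using Submodule.span_induction with
  | mem n hn =>
    obtain ⟨K, S, m, hlt, hS, hm, rfl⟩ := hn
    have hst : ∀ x, b * cj F α x m * s = cj F α (ψ x) (b * m * s) := by
      intro x
      rw [cj_ap, cj_ap, ← map_inv ψ]
      calc b * (α x * m * α x⁻¹) * s = (b * α x) * m * (α x⁻¹ * s) := by simp only [mul_assoc]
        _ = α (ψ x) * (b * m * s) * α (ψ x⁻¹) := by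
          rw [hb, hs]
          simp only [mul_assoc]
    refine Submodule.subset_span ⟨K.map ψ.toMonoidHom, S.image ψ, b * m * s, ?_, ⟨?_, ?_⟩, ?_, ?_⟩
    · rw [lt_top_iff_ne_top] at hlt ⊢
      intro h
      apply hlt
      rw [eq_top_iff]
      intro x _
      have h1 : ψ x ∈ K.map ψ.toMonoidHom := by
        rw [h]
        trivial
      obtain ⟨x', hx', h2⟩ := Subgroup.mem_map.1 h1
      rwa [← ψ.injective (show ψ x' = ψ x from h2)]
    · intro t _
      trivial
    · intro p _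
      obtain ⟨p', rfl⟩ := ψ.surjective p
      obtain ⟨t, ⟨ht, ht2⟩, ht3⟩ := hS.2 p' (Subgroup.mem_top _)
      refine ⟨ψ t, ⟨Finset.mem_image_of_mem _ ht, ?_⟩, ?_⟩
      · rw [← map_inv, ← map_mul]
        exact Subgroup.mem_map_of_mem _ ht2
      · rintro t' ⟨ht', ht'2⟩
        obtain ⟨t0, ht0, rfl⟩ := Finset.mem_image.1 ht'
        rw [← map_inv, ← map_mul] at ht'2
        obtain ⟨x', hx', h2⟩ := Subgroup.mem_map.1 ht'2
        rw [ψ.injective (show ψ x' = ψ (t0⁻¹ * p') from h2)] at hx'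
        rw [ht3 t0 ⟨ht0, hx'⟩]
    · intro x hx
      obtain ⟨x', hx', rfl⟩ := Subgroup.mem_map.1 hx
      have h1 := hst x'
      rw [hm x' hx'] at h1
      exact h1.symm
    · rw [Finset.sum_image (fun x _ x' _ h => ψ.injective h), Finset.mul_sum, Finset.sum_mul]
      exact Finset.sum_congr rfl fun x _ => hst x
  | zero => rw [mul_zero, zero_mul]; exact Submodule.zero_mem _
  | add x y _ _ hx hy => rw [mul_add, add_mul]; exact Submodule.add_mem _ hx hy
  | smul r x _ hx =>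
    rw [mul_smul_comm, smul_mul_assoc]
    exact Submodule.smul_mem _ _ hx

/-- the size of a transversal of a proper subgroup is zero in `F` -/
theorem card_zero {ℓ : ℕ} [Fact ℓ.Prime] (F : Type) [Field F] [CharP F ℓ] {H : Type} [Group H]
    [Finite H] {K P : Subgroup H} (hP : IsPGroup ℓ P) (hlt : K < P) {S : Finset H}
    (hS : IsTv K P S) : (S.card : F) = 0 := by
  have hdvd : ℓ ∣ S.card := by
    have hc := card_tv K P hlt.le S hS
    obtain ⟨k, hk⟩ := (IsPGroup.iff_card).1 hP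
    have hdiv : S.card ∣ ℓ ^ k := ⟨_, by rw [← hk]; exact hc.symm⟩
    obtain ⟨j, -, hj⟩ := (Nat.dvd_prime_pow (Fact.out : ℓ.Prime)).1 hdiv
    rcases Nat.eq_zero_or_pos j with h0 | h0
    · exfalso
      rw [h0, pow_zero] at hj
      rw [hj, one_mul] at hc
      exact hlt.ne (Subgroup.eq_of_le_of_card_ge hlt.le hc.ge)
    · rw [hj]
      exact dvd_pow_self ℓ h0.ne'
  exact (CharP.cast_eq_zero_iff F ℓ _).2 hdvd

/-- `lam(v n) = 0` for `n` in the Brauer kernel -/
theorem lam_BK {ℓ : ℕ} [Fact ℓ.Prime] [CharP F ℓ] [Finite V] (hV : IsPGroup ℓ V) (α : V →* A)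
    {lam : A →ₗ[F] F} (sym : ∀ x y, lam (x * y) = lam (y * x)) (v : V) {w : A}
    (hw : w ∈ BK (cj F α) ⊤) : lam (α v * w) = 0 := by
  classical
  unfold BK at hw
  induction hw using Submodule.span_induction with
  | mem n hn =>
    obtain ⟨K, S, m, hlt, hS, hm, rfl⟩ := hn
    have h1 : ∀ x ∈ S, lam (α v * cj F α x m) = lam (α v * m) := by
      intro x _
      rw [cj_ap]
      calc lam (α v * (α x * m * α x⁻¹)) = lam ((α v * α x * m) * α x⁻¹) := by
            simp only [mul_assoc]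
        _ = lam (α x⁻¹ * (α v * α x * m)) := sym _ _
        _ = lam (α x⁻¹ * α v * α x * m) := by simp only [mul_assoc]
        _ = lam (α v * m) := by
            rw [← map_mul, ← map_mul, mul_comm x⁻¹ v, inv_mul_cancel_right]
    rw [Finset.mul_sum, map_sum, Finset.sum_congr rfl h1, Finset.sum_const, nsmul_eq_mul,
      card_zero F (hV.to_subgroup ⊤) hlt hS, zero_mul]
  | zero => rw [mul_zero, map_zero]
  | add x y _ _ hx hy => rw [mul_add, map_add, hx, hy, add_zero]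
  | smul r x _ hx => rw [mul_smul_comm, map_smul, hx, smul_zero]

/-- The character of the centraliser of `V`. -/
structure Ch [Fintype V] (α : V →* A) (chi : A →ₗ[F] F) : Prop where
  bk : ∀ m ∈ BK (cj F α) ⊤, chi m = 0
  mul : ∀ x ∈ Fx (cj F α) ⊤, ∀ y ∈ Fx (cj F α) ⊤, chi (x * y) = chi x * chi y
  al : ∀ v, chi (α v) = 1
  spn : ∀ x ∈ Fx (cj F α) ⊤, ∃ q : V → F, x - ∑ v, q v • α v ∈ BK (cj F α) ⊤

variable [Fintype V] {α : V →* A} {chi : A →ₗ[F] F} (hc : Ch α chi)

include hc in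
theorem Ch.one : chi 1 = 1 := by
  rw [← map_one α, hc.al]

include hc in
theorem Ch.q {x : A} {q : V → F} (hq : x - ∑ v, q v • α v ∈ BK (cj F α) ⊤) :
    chi x = ∑ v, q v := by
  have h1 := hc.bk _ hq
  rw [map_sub, sub_eq_zero] at h1
  rw [h1, map_sum]
  refine Finset.sum_congr rfl fun v _ => ?_
  rw [map_smul, hc.al, smul_eq_mul, mul_one]

include hc in
/-- `chi` is invariant under conjugation with units which normalise `V` -/
theorem Ch.conj (ψ : V ≃* V) (b s : A) (hb : ∀ u, b * α u = α (ψ u) * b)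
    (hs : ∀ u, α u * s = s * α (ψ u)) (hbs : b * s = 1) {x : A} (hx : x ∈ Fx (cj F α) ⊤) :
    chi (b * x * s) = chi x := by
  obtain ⟨q, hq⟩ := hc.spn x hx
  have h1 := hc.bk _ (conj_BK α ψ b s hb hs hq)
  rw [mul_sub, sub_mul, map_sub, sub_eq_zero] at h1
  rw [h1, hc.q hq, Finset.mul_sum, Finset.sum_mul, map_sum]
  refine Finset.sum_congr rfl fun v _ => ?_
  rw [mul_smul_comm, smul_mul_assoc, map_smul, hb, mul_assoc, hbs, mul_one, hc.al, smul_eq_mul,
    mul_one]

include hc in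
/-- `lam(σ x) = chi(x) lam(σ)` -/
theorem Ch.sig {ℓ : ℕ} [Fact ℓ.Prime] [CharP F ℓ] (hV : IsPGroup ℓ V)
    {lam : A →ₗ[F] F} (sym : ∀ x y, lam (x * y) = lam (y * x)) {x : A}
    (hx : x ∈ Fx (cj F α) ⊤) : ∑ v, lam (α v * x) = chi x * lam (∑ v, α v) := by
  obtain ⟨q, hq⟩ := hc.spn x hx
  have h1 : ∀ v, lam (α v * x) = ∑ u, q u * lam (α (v * u)) := by
    intro v
    have h2 := lam_BK hV α sym v hq
    rw [mul_sub, map_sub, sub_eq_zero] at h2
    rw [h2, Finset.mul_sum, map_sum]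
    refine Finset.sum_congr rfl fun u _ => ?_
    rw [mul_smul_comm, map_smul, smul_eq_mul, map_mul α]
  rw [hc.q hq, Finset.sum_congr rfl fun v _ => h1 v, Finset.sum_comm, Finset.sum_mul]
  refine Finset.sum_congr rfl fun u _ => ?_
  rw [← Finset.mul_sum, map_sum]
  congr 1
  exact Equiv.sum_comp (Equiv.mulRight u) fun v => lam (α v)

end conj

section types

variable {F V E A Ω : Type} [Field F] [CommGroup V] [Group E] [Ring A] [Algebra F A]
  [MulAction (V × V) Ω]

theorem mem_tw (ψ : V →* V) (R : Subgroup V) (x y : V) :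
    ((x, y) : V × V) ∈ tw ψ R ↔ y ∈ R ∧ ψ y = x := by
  rw [tw, Subgroup.mem_map]
  constructor
  · rintro ⟨r, hr, h⟩
    have h1 : ψ r = x := congrArg Prod.fst h
    have h2 : r = y := congrArg Prod.snd h
    subst h2
    exact ⟨hr, h1⟩
  · rintro ⟨h1, h2⟩
    exact ⟨y, h1, Prod.ext h2 rfl⟩

/-- the point `ω` is fixed by the twisted diagonal of type `e` -/
def Ft (φ : E →* MulAut V) (e : E) (ω : Ω) : Prop := ∀ u : V, ((φ e u, u) : V × V) • ω = ω

variable {φ : E →* MulAut V}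

theorem free_of (hst : ∀ ω : Ω, ∃ (e : E) (R : Subgroup V),
      MulAction.stabilizer (V × V) ω = tw (φ e).toMonoidHom R) (ω : Ω) (v : V)
    (h : ((1, v) : V × V) • ω = ω) : v = 1 := by
  obtain ⟨e, R, hR⟩ := hst ω
  have h1 : ((1, v) : V × V) ∈ MulAction.stabilizer (V × V) ω := h
  rw [hR, mem_tw] at h1
  exact (map_eq_one_iff (φ e) (φ e).injective).1 h1.2

theorem Ft_mul (e : E) (ω : Ω) (w : V × V) (h : Ft φ e ω) : Ft φ e (w • ω) := by
  intro u
  rw [smul_smul, mul_comm, mul_smul, h u]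

theorem Ft_iff (e : E) (ω : Ω) (w : V × V) : Ft φ e (w • ω) ↔ Ft φ e ω := by
  constructor
  · intro h
    have h1 := Ft_mul e _ w⁻¹ h
    rwa [inv_smul_smul] at h1
  · exact Ft_mul e ω w

theorem ex_Ft (hst : ∀ ω : Ω, ∃ (e : E) (R : Subgroup V),
      MulAction.stabilizer (V × V) ω = tw (φ e).toMonoidHom R) (z : Zq V Ω)
    (h : ∀ u : V, u • z = z) : ∃ e : E, Ft φ e (rp z) := by
  obtain ⟨e, R, hR⟩ := hst (rp z)
  refine ⟨e, fun u => ?_⟩
  have h1 : cl V (((φ e u, 1) : V × V) • rp z) = cl V (rp z) := by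
    rw [← smul_cl, cl_rp, h]
  obtain ⟨v, hv⟩ := (cl_eq _ _).1 h1
  rw [smul_smul, Prod.mk_mul_mk, one_mul, mul_one] at hv
  have h2 : ((φ e u, v) : V × V) ∈ MulAction.stabilizer (V × V) (rp z) := hv
  rw [hR, mem_tw] at h2
  have h3 : v = u := (φ e).injective h2.2
  rwa [h3] at hv

theorem Ft_fix (e : E) (z : Zq V Ω) (h : Ft φ e (rp z)) (u : V) : u • z = z := by
  obtain ⟨u', rfl⟩ := (φ e).surjective u
  rw [← cl_rp z, smul_cl, cl_eq]
  refine ⟨u', ?_⟩
  rw [smul_smul, Prod.mk_mul_mk, one_mul, mul_one]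
  exact h u'

theorem Ft_unique {ℓ : ℕ} {W : Subgroup V} (hC : Ctf ℓ φ W)
    (hst : ∀ ω : Ω, ∃ (e : E) (R : Subgroup V),
      MulAction.stabilizer (V × V) ω = tw (φ e).toMonoidHom R) (e e' : E) (ω : Ω)
    (h : Ft φ e ω) (h' : Ft φ e' ω) : e = e' := by
  obtain ⟨e1, R, hR⟩ := hst ω
  have h1 : ∀ u, φ e1 u = φ e u := by
    intro u
    have h2 : ((φ e u, u) : V × V) ∈ MulAction.stabilizer (V × V) ω := h u
    rw [hR, mem_tw] at h2
    exact h2.2
  have h1' : ∀ u, φ e1 u = φ e' u := by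
    intro u
    have h2 : ((φ e' u, u) : V × V) ∈ MulAction.stabilizer (V × V) ω := h' u
    rw [hR, mem_tw] at h2
    exact h2.2
  obtain ⟨u, hu⟩ := hC.nt
  have h3 : φ (e'⁻¹ * e) u = u := by
    rw [map_mul, MulAut.mul_apply, ← h1, h1', ← MulAut.mul_apply, ← map_mul, inv_mul_cancel,
      map_one, MulAut.one_apply]
  rcases hC.free _ _ h3 with h4 | h4
  · rw [inv_mul_eq_one] at h4
    exact h4.symm
  · exact absurd h4 hu

variable [Fintype Ω] [Fintype V]

/-- the summand of `T w` at the orbit `z` -/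
def fw (b s : Ω → A) (w : A) (z : Zq V Ω) : A := b (rp z) * w * s (rp z)

variable {α : V →* A} {lam : A →ₗ[F] F} {b s : Ω → A} (hf : Fr2 α lam b s)

include hf in
theorem fw_cl {w : A} (hw : w ∈ Fx (cj F α) ⊤) (ω : Ω) :
    fw b s w (cl V ω) = b ω * w * s ω := by
  obtain ⟨v, hv⟩ := (cl_eq (rp (cl V ω)) ω).1 (cl_rp _)
  rw [mem_C] at hw
  rw [fw]
  conv_rhs => rw [← hv, fr_b hf, fr_s hf]
  calc b (rp (cl V ω)) * w * s (rp (cl V ω))
      = b (rp (cl V ω)) * (α v⁻¹ * α v) * w * s (rp (cl V ω)) := by rw [im, mul_one]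
    _ = b (rp (cl V ω)) * α v⁻¹ * (α v * w) * s (rp (cl V ω)) := by simp only [mul_assoc]
    _ = b (rp (cl V ω)) * α v⁻¹ * w * (α v * s (rp (cl V ω))) := by
        rw [hw]
        simp only [mul_assoc]

include hf in
theorem fw_smul {w : A} (hw : w ∈ Fx (cj F α) ⊤) (u : V) (z : Zq V Ω) :
    fw b s w (u • z) = cj F α u (fw b s w z) := by
  have h1 : u • z = cl V (((u, 1) : V × V) • rp z) := by rw [← smul_cl, cl_rp]
  rw [h1, fw_cl hf hw, hf.fb, hf.fs, cj_ap, fw]
  simp only [inv_one, map_one, mul_one, one_mul, mul_assoc]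

include hf in
theorem Ft_b (e : E) (ω : Ω) (h : Ft φ e ω) (u : V) : b ω * α u = α (φ e u) * b ω := by
  have h1 := hf.fb (φ e u, u) ω
  rw [h u] at h1
  calc b ω * α u = α (φ e u) * b ω * α u⁻¹ * α u := by rw [← h1]
    _ = α (φ e u) * b ω := by rw [mul_assoc, im, mul_one]

include hf in
theorem Ft_s (e : E) (ω : Ω) (h : Ft φ e ω) (u : V) : α u * s ω = s ω * α (φ e u) := by
  have h1 := hf.fs (φ e u, u) ω
  rw [h u] at h1
  calc α u * s ω = α u * s ω * (α (φ e u)⁻¹ * α (φ e u)) := by rw [im, mul_one]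
    _ = (α u * s ω * α (φ e u)⁻¹) * α (φ e u) := by simp only [mul_assoc]
    _ = s ω * α (φ e u) := by rw [← h1]

include hf in
theorem Tm_split {w : A} (hw : w ∈ Fx (cj F α) ⊤) :
    ∃ T : Finset (Zq V Ω), (∀ z, z ∈ T ↔ ∀ u : V, u • z = z) ∧
      Tm V b s w - ∑ z ∈ T, fw b s w z ∈ BK (cj F α) ⊤ := by
  classical
  refine ⟨Finset.univ.filter (fun z : Zq V Ω => ∀ u : V, u • z = z), ?_, ?_⟩
  · intro z
    rw [Finset.mem_filter]
    exact ⟨fun h => h.2, fun h => ⟨Finset.mem_univ _, h⟩⟩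
  · have h1 : Tm V b s w = ∑ z ∈ Finset.univ.filter (fun z : Zq V Ω => ∀ u : V, u • z = z),
        fw b s w z + ∑ z ∈ Finset.univ.filter (fun z : Zq V Ω => ¬ ∀ u : V, u • z = z),
        fw b s w z := by
      rw [Finset.sum_filter_add_sum_filter_not]
      rfl
    rw [h1, add_sub_cancel_left]
    apply Pool.Agent.PFC.B5a.H77.trs F V A (Zq V Ω) (cj F α) ⊤
    · intro z hz u _
      rw [Finset.mem_filter] at hz ⊢
      refine ⟨Finset.mem_univ _, fun h => hz.2 fun u' => ?_⟩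
      have h2 := h u'
      rw [smul_smul, mul_comm, mul_smul] at h2
      exact smul_left_cancel u h2
    · intro z hz h
      rw [Finset.mem_filter] at hz
      exact hz.2 fun u => h u (Subgroup.mem_top u)
    · intro u _ z
      exact fw_smul hf hw u z

include hf in
theorem Tm_BK (hst : ∀ ω : Ω, ∃ (e : E) (R : Subgroup V),
      MulAction.stabilizer (V × V) ω = tw (φ e).toMonoidHom R) {w : A}
    (hw : w ∈ BK (cj F α) ⊤) : Tm V b s w ∈ BK (cj F α) ⊤ := by
  obtain ⟨T, hT, hT2⟩ := Tm_split hf (BK_le_Fx _ _ hw)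
  have h1 : ∑ z ∈ T, fw b s w z ∈ BK (cj F α) ⊤ := by
    refine Submodule.sum_mem _ fun z hz => ?_
    obtain ⟨e, he⟩ := ex_Ft hst z ((hT z).1 hz)
    exact conj_BK α (φ e) _ _ (Ft_b hf e _ he) (Ft_s hf e _ he) hw
  have h2 := Submodule.add_mem _ hT2 h1
  rwa [sub_add_cancel] at h2

end types

end Pool.Agent.PFC.B5c.H31
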