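import Pool.Agent.PFC.StmtsB5a

/-!
# Squad PFC, block B5a, row INJa (helper31): the lift is injective
-/

open scoped BigOperators TensorProduct

noncomputable section

namespace Pool.Agent.PFC.B5a.H31

section

variable {F V B : Type} [Field F] [CommGroup V] [Ring B] [Algebra F B] {n : ℕ}

/-- the matrix of the coefficients at `u` -/
def Yc (u : V) (c : Matrix (Fin n) (Fin n) (MonoidAlgebra F V)) :
    Matrix (Fin n) (Fin n) F := fun i j => (c i j).coeff u

theorem Yc_add (u : V) (c d : Matrix (Fin n) (Fin n) (MonoidAlgebra F V)) :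
    Yc u (c + d) = Yc u c + Yc u d := rfl

theorem Yc_smul (u : V) (r : F) (c : Matrix (Fin n) (Fin n) (MonoidAlgebra F V)) :
    Yc u (r • c) = r • Yc u c := rfl

/-- `κ_u(c) = τ u⁻¹ y_u(c)` -/
def kap (β : V →* B) (π : B →ₐ[F] Matrix (Fin n) (Fin n) F) (u : V)
    (c : Matrix (Fin n) (Fin n) (MonoidAlgebra F V)) : Matrix (Fin n) (Fin n) F :=
  π (β u⁻¹) * Yc u c

theorem mul_kap (β : V →* B) (π : B →ₐ[F] Matrix (Fin n) (Fin n) F) (u : V)
    (c : Matrix (Fin n) (Fin n) (MonoidAlgebra F V)) :
    π (β u) * kap β π u c = Yc u c := by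
  rw [kap, ← mul_assoc, ← map_mul, ← map_mul, mul_inv_cancel, map_one, map_one, one_mul]

theorem Yc_grp (β : V →* B) (π : B →ₐ[F] Matrix (Fin n) (Fin n) F)
    (f : B →ₐ[F] Matrix (Fin n) (Fin n) (MonoidAlgebra F V)) (hf : Lf F β n π f) (v w : V)
    (c : Matrix (Fin n) (Fin n) (MonoidAlgebra F V)) :
    Yc w (f (β v) * c) = π (β v) * Yc (v⁻¹ * w) c := by
  ext i j
  simp only [Yc, Matrix.mul_apply, hf.grp, MonoidAlgebra.coeff_sum, Finsupp.finset_sum_apply,
    MonoidAlgebra.coeff_single_mul_apply]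

theorem kap_grp (β : V →* B) (π : B →ₐ[F] Matrix (Fin n) (Fin n) F)
    (f : B →ₐ[F] Matrix (Fin n) (Fin n) (MonoidAlgebra F V)) (hf : Lf F β n π f) (v w : V)
    (c : Matrix (Fin n) (Fin n) (MonoidAlgebra F V)) :
    kap β π w (f (β v) * c) = kap β π (v⁻¹ * w) c := by
  rw [kap, Yc_grp β π f hf, kap, ← mul_assoc, ← map_mul, ← map_mul, mul_inv_rev, inv_inv]

variable [Fintype V]

/-- `w_ij(c) = ∑_u κ_u(c)_ij β u` -/
def wm (β : V →* B) (π : B →ₐ[F] Matrix (Fin n) (Fin n) F) (i j : Fin n) :
    Matrix (Fin n) (Fin n) (MonoidAlgebra F V) →ₗ[F] B where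
  toFun c := ∑ u, kap β π u c i j • β u
  map_add' c d := by
    simp only [kap, Yc_add, mul_add, Matrix.add_apply, add_smul, Finset.sum_add_distrib]
  map_smul' r c := by
    simp only [kap, Yc_smul, Matrix.mul_smul, Matrix.smul_apply, smul_assoc, Finset.smul_sum,
      RingHom.id_apply]

theorem wm_grp (β : V →* B) (π : B →ₐ[F] Matrix (Fin n) (Fin n) F)
    (f : B →ₐ[F] Matrix (Fin n) (Fin n) (MonoidAlgebra F V)) (hf : Lf F β n π f) (i j : Fin n)
    (v : V) (c : Matrix (Fin n) (Fin n) (MonoidAlgebra F V)) :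
    wm β π i j (f (β v) * c) = β v * wm β π i j c := by
  change ∑ u, kap β π u (f (β v) * c) i j • β u = β v * ∑ u, kap β π u c i j • β u
  rw [Finset.mul_sum, ← Equiv.sum_comp (Equiv.mulLeft v)]
  refine Finset.sum_congr rfl fun u _ => ?_
  rw [kap_grp β π f hf, Equiv.coe_mulLeft, inv_mul_cancel_left, mul_smul_comm, map_mul]

theorem wm_sum (β : V →* B) (π : B →ₐ[F] Matrix (Fin n) (Fin n) F)
    (f : B →ₐ[F] Matrix (Fin n) (Fin n) (MonoidAlgebra F V)) (hf : Lf F β n π f)
    (c : Matrix (Fin n) (Fin n) (MonoidAlgebra F V)) :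
    ∑ i, ∑ j, f (wm β π i j c) * Matrix.single i j 1 = c := by
  classical
  ext p q w
  have h1 : ∀ i j, (f (wm β π i j c) p i).coeff w = kap β π w c i j * π (β w) p i := by
    intro i j
    change (f (∑ u, kap β π u c i j • β u) p i).coeff w = _
    simp only [map_sum, map_smul, Matrix.sum_apply, Matrix.smul_apply, hf.grp,
      MonoidAlgebra.coeff_sum, MonoidAlgebra.coeff_smul, MonoidAlgebra.coeff_single,
      Finsupp.finset_sum_apply, Finsupp.smul_apply, Finsupp.single_apply, smul_eq_mul, mul_ite,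
      mul_zero, Finset.sum_ite_eq, Finset.sum_ite_eq', Finset.mem_univ, if_true]
  have h2 : ∀ i j, ((f (wm β π i j c) * Matrix.single i j 1 :
      Matrix (Fin n) (Fin n) (MonoidAlgebra F V)) p q).coeff w =
      if j = q then kap β π w c i j * π (β w) p i else 0 := by
    intro i j
    by_cases h : j = q
    · subst h
      rw [if_pos rfl, Matrix.mul_single_apply_same, mul_one, h1]
    · rw [if_neg h, Matrix.mul_single_apply_of_ne _ _ _ _ _ (Ne.symm h)]
      rfl
  have h3 : (c p q).coeff w = (π (β w) * kap β π w c) p q := by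
    rw [mul_kap]
    rfl
  rw [h3, Matrix.mul_apply]
  simp only [Matrix.sum_apply, MonoidAlgebra.coeff_sum, Finsupp.finset_sum_apply, h2]
  refine Finset.sum_congr rfl fun i _ => ?_
  rw [Finset.sum_ite_eq' Finset.univ q, if_pos (Finset.mem_univ q), mul_comm]

end

/-- row INJa -/
theorem inj : InjStmt := by
  classical
  intro F V B _ _ _ _ _ β n π f hn hsep hsur hnil hf
  obtain ⟨κ, _, u, v, huv, hT⟩ := hsep
  -- the averaged maps
  let s : Fin n → Fin n → Matrix (Fin n) (Fin n) (MonoidAlgebra F V) → B := fun i j c =>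
    ∑ k, u k * wm β π i j (f (v k) * c)
  have hs : ∀ i j c b, s i j (f b * c) = b * s i j c := by
    intro i j c b
    let T : B →ₗ[F] B →ₗ[F] B := LinearMap.mk₂ F (fun x y => x * wm β π i j (f y * c))
      (fun x x' y => add_mul _ _ _) (fun r x y => smul_mul_assoc _ _ _)
      (fun x y y' => by rw [map_add, add_mul, map_add, mul_add])
      (fun r x y => by rw [map_smul, smul_mul_assoc, map_smul, mul_smul_comm])
    have hTa : ∀ x y, T x y = x * wm β π i j (f y * c) := fun x y => rfl
    have h := hT B T (fun a b g => by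
      rw [hTa, hTa, map_mul f, mul_assoc (f (β g)), wm_grp β π f hf, mul_assoc]) b
    simp only [hTa] at h
    change ∑ k, u k * wm β π i j (f (v k) * (f b * c)) = b * ∑ k, u k * wm β π i j (f (v k) * c)
    rw [Finset.mul_sum]
    calc ∑ k, u k * wm β π i j (f (v k) * (f b * c))
        = ∑ k, u k * wm β π i j (f (v k * b) * c) := by
          refine Finset.sum_congr rfl fun k _ => ?_
          rw [map_mul f, mul_assoc]
      _ = ∑ k, b * u k * wm β π i j (f (v k) * c) := h.symm
      _ = _ := Finset.sum_congr rfl fun k _ => mul_assoc _ _ _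
  have hsum : ∑ i, ∑ j, f (s i j 1) * Matrix.single i j 1 =
      (1 : Matrix (Fin n) (Fin n) (MonoidAlgebra F V)) := by
    have h1 : ∀ i j, f (s i j 1) = ∑ k, f (u k) * f (wm β π i j (f (v k) * 1)) := by
      intro i j
      change f (∑ k, u k * wm β π i j (f (v k) * 1)) = _
      rw [map_sum]
      exact Finset.sum_congr rfl fun k _ => map_mul f _ _
    calc ∑ i, ∑ j, f (s i j 1) * Matrix.single i j 1
        = ∑ i, ∑ j, ∑ k, f (u k) * (f (wm β π i j (f (v k) * 1)) * Matrix.single i j 1) := by
          refine Finset.sum_congr rfl fun i _ => Finset.sum_congr rfl fun j _ => ?_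
          rw [h1, Finset.sum_mul]
          exact Finset.sum_congr rfl fun k _ => mul_assoc _ _ _
      _ = ∑ i, ∑ k, ∑ j, f (u k) * (f (wm β π i j (f (v k) * 1)) * Matrix.single i j 1) :=
          Finset.sum_congr rfl fun i _ => Finset.sum_comm
      _ = ∑ k, ∑ i, ∑ j, f (u k) * (f (wm β π i j (f (v k) * 1)) * Matrix.single i j 1) :=
          Finset.sum_comm
      _ = ∑ k, f (u k) * ∑ i, ∑ j, f (wm β π i j (f (v k) * 1)) * Matrix.single i j 1 := by
          simp only [Finset.mul_sum]
      _ = ∑ k, f (u k) * (f (v k) * 1) := by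
          refine Finset.sum_congr rfl fun k _ => ?_
          rw [wm_sum β π f hf]
      _ = f (∑ k, u k * v k) := by
          simp only [map_sum, map_mul, mul_one]
      _ = 1 := by rw [huv, map_one]
  have hs0 : ∀ i j, s i j 0 = 0 := by
    intro i j
    change ∑ k, u k * wm β π i j (f (v k) * 0) = 0
    simp only [mul_zero, map_zero, Finset.sum_const_zero]
  clear_value s
  -- some coefficient does not vanish
  have hne : ∃ i j p q, π (s i j 1) p q ≠ 0 := by
    by_contra hcon
    simp only [not_exists, not_not] at hcon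
    have h0 : au F V ((1 : Matrix (Fin n) (Fin n) (MonoidAlgebra F V)) ⟨0, hn⟩ ⟨0, hn⟩) = 0 := by
      rw [← hsum]
      simp only [Matrix.sum_apply, Matrix.mul_apply, map_sum, map_mul, hf.aug, hcon, zero_mul,
        Finset.sum_const_zero]
    rw [Matrix.one_apply_eq, map_one] at h0
    exact one_ne_zero h0
  obtain ⟨i, j, p, q, hx⟩ := hne
  rw [injective_iff_map_eq_zero]
  intro k hk
  have hkb : ∀ b, k * (b * s i j 1) = 0 := by
    intro b
    rw [← mul_assoc, ← hs, map_mul f, hk, zero_mul, zero_mul, hs0]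
  choose e he using fun m : Fin n => hsur (Matrix.single m p (1 : F))
  choose e' he' using fun m : Fin n => hsur (Matrix.single q m (1 : F))
  set y : B := (π (s i j 1) p q)⁻¹ • ∑ m, e m * s i j 1 * e' m with hy
  have hπy : π y = 1 := by
    rw [hy, map_smul, map_sum]
    simp only [map_mul, he, he']
    ext a b
    rw [Matrix.smul_apply, Matrix.sum_apply, smul_eq_mul]
    have h1 : ∀ m : Fin n, (Matrix.single m p (1 : F) * π (s i j 1) * Matrix.single q m (1 : F) :
        Matrix (Fin n) (Fin n) F) a b = if a = m then (if m = b then π (s i j 1) p q else 0) else 0 := by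
      intro m
      by_cases ha : a = m
      · subst ha
        rw [if_pos rfl]
        by_cases hb : a = b
        · subst hb
          rw [if_pos rfl, Matrix.mul_single_apply_same, mul_one,
            Matrix.single_mul_apply_same, one_mul]
        · rw [if_neg hb, Matrix.mul_single_apply_of_ne _ _ _ _ _ (Ne.symm hb)]
      · rw [if_neg ha, Matrix.mul_assoc, Matrix.single_mul_apply_of_ne _ _ _ _ _ ha]
    simp only [h1, Finset.sum_ite_eq, Finset.mem_univ, if_true]
    by_cases hab : a = b
    · subst hab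
      rw [if_pos rfl, inv_mul_cancel₀ hx, Matrix.one_apply_eq]
    · rw [if_neg hab, mul_zero, Matrix.one_apply_ne hab]
  have hky : k * y = 0 := by
    rw [hy, mul_smul_comm, Finset.mul_sum]
    simp only [← mul_assoc]
    have h1 : ∀ m, k * e m * s i j 1 * e' m = 0 := by
      intro m
      rw [mul_assoc k, hkb, zero_mul]
    simp only [h1, Finset.sum_const_zero, smul_zero]
  have hu : IsUnit y := by
    have h1 : IsNilpotent (1 - y) := hnil _ (by rw [map_sub, map_one, hπy, sub_self])
    have h2 := h1.isUnit_one_sub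
    rwa [sub_sub_cancel] at h2
  exact (hu.mul_left_eq_zero).1 hky

end Pool.Agent.PFC.B5a.H31
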